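import Pool.Agent.Lib.MP_e8440a_lc.Main

/- No normal, fine, `κ`-complete, `κ⁺`-saturated ideal on `[κ⁺]^κ`, for every regular
uncountable cardinal `κ` (in particular for `κ = ℵ_n`, `n ≥ 1`). -/

namespace Pool.Agent.Results.MP_e8440a_lc.NoIdeal

open Set Filter Pool.Agent.Lib.MP_e8440a_lc

/-- `Z κ` is `[κ⁺]^κ`: the sets of ordinals below `κ⁺` that have cardinality `κ`. -/
def Z (κ : Cardinal.{0}) : Type 1 :=
  {x : Set Ordinal.{0} //
    x ⊆ Set.Iio (Order.succ κ).ord ∧ Cardinal.mk x = Cardinal.lift.{1} κ}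

theorem result (κ : Cardinal.{0}) (hreg : κ.IsRegular) (hunc : Cardinal.aleph0 < κ) :
    ¬ ∃ I : Set (Set (Z κ)),
      (∅ ∈ I ∧ (∀ A ∈ I, ∀ B ⊆ A, B ∈ I) ∧ (∀ A ∈ I, ∀ B ∈ I, A ∪ B ∈ I) ∧ Set.univ ∉ I) ∧
      (∀ α < (Order.succ κ).ord, {x : Z κ | α ∉ x.1} ∈ I) ∧
      (∀ A ∉ I, ∀ f : Z κ → Ordinal.{0}, (∀ x ∈ A, f x ∈ x.1) →
        ∃ B ⊆ A, B ∉ I ∧ ∃ α, ∀ x ∈ B, f x = α) ∧
      (∀ 𝒜 ⊆ I, Cardinal.mk 𝒜 < Cardinal.lift.{1} κ → ⋃₀ 𝒜 ∈ I) ∧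
      ¬ ∃ 𝒜 : Set (Set (Z κ)), Cardinal.mk 𝒜 = Cardinal.lift.{1} (Order.succ κ) ∧
        (∀ A ∈ 𝒜, A ∉ I) ∧ ∀ A ∈ 𝒜, ∀ B ∈ 𝒜, A ≠ B → A ∩ B ∈ I := by
  rintro ⟨I, ⟨h0, hsub, hun, hpr⟩, hfine, hnorm, hcomp, hsat⟩
  let G : Filter (Z κ) :=
    { sets := {S | Sᶜ ∈ I}
      univ_sets := by simpa using h0
      sets_of_superset := fun {S T} hS hST => hsub _ hS _ (compl_subset_compl.2 hST)
      inter_sets := fun {S T} hS hT => by
        show (S ∩ T)ᶜ ∈ I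
        rw [compl_inter]
        exact hun _ hS _ hT }
  let F : Filter (Set On) := G.map fun x => x.1
  have hev : ∀ P : Set On → Prop, (∀ᶠ x in F, P x) ↔ {x : Z κ | ¬ P x.1} ∈ I :=
    fun P => Iff.rfl
  have hfr : ∀ P : Set On → Prop, (∃ᶠ x in F, P x) ↔ {x : Z κ | P x.1} ∉ I := by
    intro P
    unfold Filter.Frequently
    rw [hev]
    simp only [not_not]
  have hall : ∀ P : Set On → Prop, (∀ x : Z κ, P x.1) → ∀ᶠ x in F, P x := by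
    intro P h
    rw [hev]
    exact hsub _ h0 _ fun x hx => hx (h x)
  have hc : κ.ord.card = κ := Cardinal.card_ord κ
  have hnx : nx κ.ord = (Order.succ κ).ord := by unfold nx; rw [hc]
  have hK : Reg κ.ord := ⟨hc.symm ▸ hreg, by rw [hc], hc.symm ▸ hunc⟩
  refine Ctx.false (K := κ.ord) (𝓕 := F) ⟨hK, ?_, hall _ fun x => by rw [hnx]; exact x.2.1,
    hall _ fun x => ?_, hall _ fun x => ?_, fun α hα => (hev _).2 (hfine α (hnx ▸ hα)),
    fun P f h => ?_, fun S P hS h => ?_, fun S P h1 h2 => ?_⟩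
  · refine ⟨fun h => hpr ?_⟩
    have := (hev fun _ => False).1 (by rw [h]; exact eventually_bot)
    simpa using this
  · unfold Sm
    rw [hc, x.2.2]
    exact lt_irrefl _
  · unfold Sm
    rw [card_nx, hc, x.2.2]
    exact Cardinal.lift_lt.2 (Order.lt_succ κ)
  · obtain ⟨B, hB, hBI, α, hα⟩ := hnorm _ ((hfr _).1 h) (fun x => f x.1) fun x hx => hx.2
    exact ⟨α, (hfr _).2 fun h' => hBI (hsub _ h' _ fun x hx => ⟨(hB hx).1, hα x hx⟩)⟩
  · rw [hev]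
    refine hsub _ (hcomp ((fun i => {x : Z κ | ¬ P i x.1}) '' S) ?_ ?_) _ fun x hx => ?_
    · rintro _ ⟨i, hi, rfl⟩
      exact (hev _).1 (h i hi)
    · have := hS.image fun i => {x : Z κ | ¬ P i x.1}
      unfold Sm at this
      rwa [hc] at this
    · have hx' : ¬ ∀ i ∈ S, P i x.1 := hx
      push Not at hx'
      obtain ⟨i, hi, hx'⟩ := hx'
      exact ⟨_, ⟨i, hi, rfl⟩, hx'⟩
  · have h3 : ∀ i ∈ S, ∀ j ∈ S, i ≠ j → {x : Z κ | P i x.1} ∩ {x : Z κ | P j x.1} ∈ I :=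
      fun i hi j hj hij => hsub _ ((hev _).1 (h2 i hi j hj hij)) _ fun x hx h => h hx
    have hinj : InjOn (fun i => {x : Z κ | P i x.1}) S := by
      intro i hi j hj he
      by_contra hij
      have := h3 i hi j hj hij
      rw [← show {x : Z κ | P i x.1} = {x : Z κ | P j x.1} from he, inter_self] at this
      exact (hfr _).1 (h1 i hi) this
    unfold Sm
    rw [card_nx, hc, ← Cardinal.mk_image_eq_of_injOn _ _ hinj]
    by_contra hle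
    obtain ⟨𝒜, h4, h5⟩ := Cardinal.le_mk_iff_exists_subset.1 (not_lt.1 hle)
    refine hsat ⟨𝒜, h5, fun A hA => ?_, fun A hA B hB hAB => ?_⟩
    · obtain ⟨i, hi, rfl⟩ := h4 hA
      exact (hfr _).1 (h1 i hi)
    · obtain ⟨i, hi, rfl⟩ := h4 hA
      obtain ⟨j, hj, rfl⟩ := h4 hB
      exact h3 i hi j hj fun h => hAB (by rw [h])

end Pool.Agent.Results.MP_e8440a_lc.NoIdeal
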